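import Mathlib
import Pool.Agent.N743.Dg.TwoBase

/-! Digits cut into pieces of small linear complexity, and rational approximations. -/

set_option autoImplicit false

namespace Pool.Agent.L0h78.ND

open Finset
open Pool.Agent.N743.Dg (digit Recurrence F approx)

/-- The terms `s_(u+1), …, s_v` satisfy a linear recurrence of order `m`. -/
def Piece (s : ℕ → ℤ) (m u v : ℕ) : Prop :=
  ∃ c : ℕ → ℚ, ∀ i : ℕ, u < i → i + m ≤ v → (s (i + m) : ℚ) = ∑ j ∈ range m, c j * (s (i + j) : ℚ)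

/-- The terms `s_1, …, s_L` can be cut into `k + 1` (possibly empty) pieces; the piece that begins
after the term `s_u` satisfies a linear recurrence of order at most `m + A u`. -/
def Cut (s : ℕ → ℤ) (A k m L : ℕ) : Prop :=
  ∃ u : ℕ → ℕ, Monotone u ∧ u 0 = 0 ∧ u (k + 1) = L ∧
    ∀ i ≤ k, ∃ m' ≤ m + A * u i, Piece s m' (u i) (u (i + 1))

/-- `x` has simple digits up to the scale `Λ` in some base -/
def Simple (A k : ℕ) (Λ δ x : ℝ) : Prop :=
  ∃ b L m : ℕ, 2 ≤ b ∧ Λ ≤ L * Real.log b ∧ ((m : ℝ) + 1) * Real.log b ≤ δ ∧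
    Cut (digit b x) A k m L

/-- height -/
def HtLe (H : ℝ) (q : ℚ) : Prop := (|q.num| : ℝ) ≤ H ∧ (q.den : ℝ) ≤ H

/-- close to a rational number -/
def Near (H ε x : ℝ) : Prop := ∃ r : ℚ, HtLe H r ∧ |x - r| ≤ ε

lemma digit_shift (b : ℕ) (x : ℝ) (M i : ℕ) : digit b (x * (b : ℝ) ^ M) i = digit b x (M + i) := by
  unfold digit
  rw [mul_assoc, ← pow_add]

lemma F17_le (m : ℕ) : F 17 m ≤ 18 * ((m : ℝ) + 1) := by
  unfold F
  have hm : (0 : ℝ) ≤ m := Nat.cast_nonneg m
  have h1 : Real.log ((m : ℝ) + 2) ≤ (m : ℝ) + 1 := by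
    have := Real.log_le_sub_one_of_pos (show (0 : ℝ) < (m : ℝ) + 2 by linarith)
    linarith
  have h2 : Real.sqrt (((m : ℝ) + 1) * Real.log ((m : ℝ) + 2)) ≤ (m : ℝ) + 1 := by
    rw [Real.sqrt_le_left (by linarith)]
    nlinarith
  linarith

/-- **One piece gives a rational approximation.** -/
theorem window (b : ℕ) (hb : 2 ≤ b) (x : ℝ) (m M L : ℕ) (hML : M ≤ L)
    (h : Piece (digit b x) m M L) :
    ((L : ℝ) - M) * Real.log b ≤ 18 * (((m : ℝ) + 1) * Real.log b) ∨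
      ∃ (q : ℕ) (p : ℤ), 1 ≤ q ∧ (q : ℝ) ≤ Real.exp (M * Real.log b + 18 * (((m : ℝ) + 1) * Real.log b)) ∧
        |(q : ℝ) * x - p| ≤ Real.exp (18 * (((m : ℝ) + 1) * Real.log b) - ((L : ℝ) - M) * Real.log b) := by
  obtain ⟨c, hc⟩ := h
  have hbR : (2 : ℝ) ≤ b := by exact_mod_cast hb
  have hb0 : (0 : ℝ) < b := by linarith
  have hlog : 0 < Real.log b := Real.log_pos (by linarith)
  have hF := F17_le m
  have hFl : F 17 m * Real.log b ≤ 18 * (((m : ℝ) + 1) * Real.log b) := by nlinarith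
  have hrec : Recurrence (digit b (x * (b : ℝ) ^ M)) c (L - M) m := by
    intro i h1 h2
    rw [digit_shift]
    have h3 := hc (M + i) (by omega) (by omega)
    rw [show M + (i + m) = M + i + m by ring, h3]
    refine Finset.sum_congr rfl fun j _ => ?_
    rw [digit_shift, show M + (i + j) = M + i + j by ring]
  have hcast : ((L - M : ℕ) : ℝ) = (L : ℝ) - M := by
    rw [Nat.cast_sub hML]
  rcases approx b hb (x * (b : ℝ) ^ M) (L - M) m c hrec with h1 | ⟨q, p, hq, hqle, hqx⟩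
  · left
    rw [hcast] at h1
    nlinarith
  · right
    rw [hcast] at hqx
    refine ⟨q * b ^ M, p, Nat.one_le_iff_ne_zero.2 (by positivity), ?_, ?_⟩
    · push_cast
      have e : (b : ℝ) ^ M = Real.exp (M * Real.log b) := by
        rw [← Real.log_pow, Real.exp_log (by positivity)]
      rw [e, add_comm, Real.exp_add]
      refine mul_le_mul_of_nonneg_right (hqle.trans ?_) (Real.exp_pos _).le
      exact Real.exp_le_exp.2 hFl
    · have e : ((q * b ^ M : ℕ) : ℝ) * x = (q : ℝ) * (x * (b : ℝ) ^ M) := by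
        push_cast
        ring
      rw [e]
      refine hqx.trans (Real.exp_le_exp.2 ?_)
      nlinarith

/-- there is a window of scales without a cut -/
theorem pigeon (r k : ℕ) (T : ℕ → ℝ) (hT : Monotone T) (t : Fin r → Fin k → ℝ) :
    ∃ j ≤ r * k, ∀ i l, t i l ≤ T j ∨ T (j + 1) ≤ t i l := by
  by_contra hcon
  push Not at hcon
  choose g1 g2 hg using fun j : Fin (r * k + 1) => hcon j (by omega)
  have key : ∀ j j' : Fin (r * k + 1), (g1 j, g2 j) = (g1 j', g2 j') → ¬ j < j' := by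
    intro j j' he hlt
    rw [Prod.mk.injEq] at he
    have h1 := (hg j).2
    have h2 := (hg j').1
    rw [he.1, he.2] at h1
    have h3 := hT (show (j : ℕ) + 1 ≤ j' from hlt)
    linarith
  have hinj : Function.Injective (fun j => (g1 j, g2 j)) := by
    intro j j' he
    have h1 := key j j' he
    have h2 := key j' j he.symm
    exact le_antisymm (not_lt.1 h2) (not_lt.1 h1)
  have hcard := Fintype.card_le_of_injective _ hinj
  rw [Fintype.card_fin, Fintype.card_prod, Fintype.card_fin, Fintype.card_fin] at hcard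
  omega

/-- the piece over the window -/
theorem piece_over (k L : ℕ) (u : ℕ → ℕ) (h0 : u 0 = 0) (hk : u (k + 1) = L) (lb T T' : ℝ)
    (hT : 0 ≤ T) (hT' : 0 < T') (hL : T' ≤ L * lb)
    (h : ∀ l : Fin k, (u (l + 1) : ℝ) * lb ≤ T ∨ T' ≤ (u (l + 1) : ℝ) * lb) :
    ∃ l ≤ k, (u l : ℝ) * lb ≤ T ∧ T' ≤ (u (l + 1) : ℝ) * lb := by
  classical
  have hex : ∃ l : ℕ, T' ≤ (u l : ℝ) * lb := ⟨k + 1, by rw [hk]; exact hL⟩
  obtain ⟨l, hl⟩ : ∃ l, l = Nat.find hex := ⟨_, rfl⟩
  have h1 : T' ≤ (u l : ℝ) * lb := by rw [hl]; exact Nat.find_spec hex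
  have h2 : ∀ l' < l, ¬ T' ≤ (u l' : ℝ) * lb := fun l' hl' => Nat.find_min hex (by omega)
  have hl0 : l ≠ 0 := by
    rintro rfl
    rw [h0, Nat.cast_zero, zero_mul] at h1
    linarith
  have hlk : l ≤ k + 1 := by rw [hl]; exact Nat.find_le (by rw [hk]; exact hL)
  obtain ⟨l', rfl⟩ : ∃ l', l = l' + 1 := ⟨l - 1, by omega⟩
  refine ⟨l', by omega, ?_, h1⟩
  rcases Nat.eq_zero_or_pos l' with rfl | hpos
  · rw [h0, Nat.cast_zero, zero_mul]
    exact hT
  · have h3 := h ⟨l' - 1, by omega⟩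
    have e : ((⟨l' - 1, by omega⟩ : Fin k) : ℕ) + 1 = l' := by simp; omega
    rw [e] at h3
    rcases h3 with h3 | h3
    · exact h3
    · exact absurd h3 (h2 l' (by omega))

lemma near_of_frac (H ε x : ℝ) (q : ℕ) (p : ℤ) (hq : 1 ≤ q) (hqH : (q : ℝ) ≤ H) (hpH : |(p : ℝ)| ≤ H)
    (h : |(q : ℝ) * x - p| ≤ ε) : Near H ε x := by
  have hq0 : (0 : ℝ) < q := by exact_mod_cast hq
  have hqz : (q : ℤ) ≠ 0 := by omega
  refine ⟨(p : ℚ) / (q : ℤ), ⟨?_, ?_⟩, ?_⟩
  · rw [← Rat.divInt_eq_div]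
    have h1 := Rat.num_dvd p hqz
    rcases eq_or_ne p 0 with rfl | hp
    · simp
      linarith
    · have h2 := Int.le_of_dvd (abs_pos.2 hp) ((abs_dvd_abs _ _).2 h1)
      refine le_trans ?_ hpH
      exact_mod_cast h2
  · rw [← Rat.divInt_eq_div]
    have h1 := Rat.den_dvd p q
    have h2 : ((Rat.divInt p q).den : ℤ) ≤ q := Int.le_of_dvd (by omega) h1
    refine le_trans ?_ hqH
    exact_mod_cast h2
  · push_cast
    have e : x - (p : ℝ) / q = ((q : ℝ) * x - p) / q := by field_simp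
    rw [e, abs_div, abs_of_pos hq0, div_le_iff₀ hq0]
    refine h.trans ?_
    have h0 : 0 ≤ ε := (abs_nonneg _).trans h
    have h1 : (1 : ℝ) ≤ q := by exact_mod_cast hq
    nlinarith

/-- **Simple digits of finitely many numbers give rational approximations at a common scale.** -/
theorem near (C κ : ℝ) (hC : 0 < C) (hκ : 1 < κ) (r A : ℕ) :
    ∃ c : ℝ, 0 < c ∧ ∀ (k : ℕ) (N Λ : ℝ), 3 ≤ N → 0 ≤ Λ →
      Real.log N ≤ c * Λ ^ (1 / κ ^ (r * k + 1)) → ∀ x : Fin r → ℝ,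
      (∀ i, |x i| ≤ N ^ 4 ∧ Simple A k Λ (c * Λ ^ (1 / κ ^ (r * k + 1))) (x i)) →
      ∃ H : ℝ, 3 ≤ H ∧ N ≤ H ∧ ∀ i, Near H (Real.exp (-(C * Real.log H ^ κ))) (x i) := by
  obtain ⟨E, hE⟩ : ∃ E : ℝ, E = 10 + 18 * A := ⟨_, rfl⟩
  have hA0 : (0 : ℝ) ≤ A := Nat.cast_nonneg A
  have hE10 : 10 ≤ E := by linarith
  obtain ⟨B, hB⟩ : ∃ B : ℝ, B = C * (E + 5) ^ κ + 2 * E := ⟨_, rfl⟩
  have h15 : (0 : ℝ) < (E + 5) ^ κ := by positivity
  have hCB : 0 < C * (E + 5 : ℝ) ^ κ := by positivity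
  have hB1 : 1 ≤ B := by linarith
  obtain ⟨D, hD⟩ : ∃ D : ℝ, D = B ^ (1 / (κ - 1)) := ⟨_, rfl⟩
  have hκ1 : 0 < κ - 1 := by linarith
  have hD1 : 1 ≤ D := by rw [hD]; exact Real.one_le_rpow hB1 (by positivity)
  have hD0 : 0 < D := by linarith
  have hDB : D ^ (κ - 1) = B := by
    rw [hD, ← Real.rpow_mul (by linarith), one_div, inv_mul_cancel₀ hκ1.ne', Real.rpow_one]
  refine ⟨1 / (2 * D), by positivity, fun k N Λ hN hΛ hNΛ x hx => ?_⟩
  obtain ⟨Y, hY⟩ : ∃ Y : ℝ, Y = Λ ^ (1 / κ ^ (r * k + 1)) := ⟨_, rfl⟩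
  rw [← hY] at hNΛ hx
  have hlogN : 1 ≤ Real.log N := by
    rw [Real.le_log_iff_exp_le (by linarith)]
    have := Real.exp_one_lt_d9
    linarith
  have hYD : 2 * Real.log N ≤ Y / D := by
    have e : 1 / (2 * D) * Y = Y / D / 2 := by field_simp
    rw [e] at hNΛ
    linarith
  have hY2 : 2 * D ≤ Y := by
    have h1 : 2 ≤ Y / D := by linarith
    rwa [le_div_iff₀ hD0] at h1
  have hY1 : 1 ≤ Y := by linarith
  have hY0 : 0 < Y := by linarith
  have hκ0 : 0 < κ := by linarith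
  obtain ⟨T, hTdef⟩ : ∃ T : ℕ → ℝ, T = fun j => Y ^ (κ ^ j) / D := ⟨_, rfl⟩
  have hTj : ∀ j, T j = Y ^ (κ ^ j) / D := fun j => by rw [hTdef]
  have hmono : Monotone T := by
    refine monotone_nat_of_le_succ fun j => ?_
    rw [hTj, hTj]
    refine div_le_div_of_nonneg_right ?_ hD0.le
    refine Real.rpow_le_rpow_of_exponent_le hY1 ?_
    exact pow_le_pow_right₀ hκ.le (Nat.le_succ j)
  have hT0 : T 0 = Y / D := by rw [hTj, pow_zero, Real.rpow_one]
  have hT2 : ∀ j, Y / D ≤ T j := fun j => by rw [← hT0]; exact hmono (Nat.zero_le j)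
  have hTpos : ∀ j, 2 ≤ T j := fun j => by have := hT2 j; linarith
  have hstep : ∀ j, T (j + 1) = B * T j ^ κ := by
    intro j
    have h1 : T j * D = Y ^ (κ ^ j) := by rw [hTj]; field_simp
    have h2 : Y ^ (κ ^ (j + 1)) = (T j * D) ^ κ := by
      rw [h1, ← Real.rpow_mul hY0.le, pow_succ]
    rw [hTj (j + 1), h2, Real.mul_rpow (by linarith [hTpos j]) hD0.le, ← hDB,
      Real.rpow_sub hD0, Real.rpow_one]
    field_simp
  have hTlast : T (r * k + 1) ≤ Λ := by
    rw [hTj, hY, ← Real.rpow_mul hΛ, one_div, inv_mul_cancel₀ (by positivity), Real.rpow_one]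
    exact div_le_self hΛ hD1
  choose hxN b L m hb hΛL hm hcut using hx
  choose u hu hu0 huk hpiece using hcut
  obtain ⟨j, hj, hwin⟩ := pigeon r k T hmono (fun i l => (u i (l + 1) : ℝ) * Real.log (b i))
  have hTj2 := hTpos j
  have hTκ : T j ≤ T j ^ κ := by
    calc T j = T j ^ (1 : ℝ) := (Real.rpow_one _).symm
      _ ≤ T j ^ κ := Real.rpow_le_rpow_of_exponent_le (by linarith) hκ.le
  have hstepj := hstep j
  have hbig : C * ((E + 5) * T j) ^ κ + 2 * (E * T j) ≤ T (j + 1) := by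
    rw [hstepj, hB, Real.mul_rpow (by linarith) (by linarith)]
    have h1 : E * T j ≤ E * T j ^ κ := mul_le_mul_of_nonneg_left hTκ (by linarith)
    linarith
  have hpow0 : 0 ≤ C * ((E + 5) * T j) ^ κ := by positivity
  have hTjN : 2 * Real.log N ≤ T j := hYD.trans (hT2 j)
  have hET : 10 * T j ≤ E * T j := mul_le_mul_of_nonneg_right hE10 (by linarith)
  have hexp3 : (3 : ℝ) ≤ Real.exp ((E + 5) * T j) := by
    have := Real.add_one_le_exp ((E + 5) * T j)
    linarith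
  have hNexp : N ≤ Real.exp (T j / 2) := by
    rw [← Real.exp_log (show 0 < N by linarith)]
    exact Real.exp_le_exp.2 (by linarith)
  refine ⟨Real.exp ((E + 5) * T j), hexp3, hNexp.trans (Real.exp_le_exp.2 (by linarith)), fun i => ?_⟩
  rw [Real.log_exp]
  have hj1 : T (j + 1) ≤ T (r * k + 1) := hmono (by omega)
  obtain ⟨l, hlk, hl1, hl2⟩ := piece_over k (L i) (u i) (hu0 i) (huk i) (Real.log (b i)) (T j) (T (j + 1))
    (by linarith) (by linarith [hTpos (j + 1)]) (by linarith [hΛL i]) (fun l => hwin i l)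
  have hlb : 0 < Real.log (b i) := Real.log_pos (by exact_mod_cast hb i)
  obtain ⟨m', hm', hp'⟩ := hpiece i l hlk
  have hδi : 18 * (((m' : ℝ) + 1) * Real.log (b i)) ≤ (E - 1) * T j := by
    have h1 := hm i
    have e : 1 / (2 * D) * Y = Y / D / 2 := by field_simp
    rw [e] at h1
    have h2 := hT2 j
    have h3 : (m' : ℝ) ≤ m i + A * u i l := by exact_mod_cast hm'
    have h4 : ((m' : ℝ) + 1) * Real.log (b i) ≤
        ((m i : ℝ) + 1) * Real.log (b i) + A * (u i l * Real.log (b i)) := by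
      have h5 := mul_le_mul_of_nonneg_right h3 hlb.le
      linarith
    have h6 : A * ((u i l : ℝ) * Real.log (b i)) ≤ A * T j := mul_le_mul_of_nonneg_left hl1 hA0
    have h7 : (E - 1) * T j = 9 * T j + 18 * (A * T j) := by rw [hE]; ring
    linarith
  have hmul : ((u i (l + 1) : ℝ) - u i l) * Real.log (b i) =
      u i (l + 1) * Real.log (b i) - u i l * Real.log (b i) := by ring
  rcases window (b i) (hb i) (x i) m' (u i l) (u i (l + 1)) (hu i (Nat.le_succ l)) hp' with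
    h1 | ⟨q, p, hq, hqle, hqx⟩
  · exfalso
    rw [hmul] at h1
    linarith
  · rw [hmul] at hqx
    have hq2 : (q : ℝ) ≤ Real.exp (E * T j) := hqle.trans (Real.exp_le_exp.2 (by linarith))
    have hqx2 : |(q : ℝ) * x i - p| ≤ Real.exp (E * T j - T (j + 1)) :=
      hqx.trans (Real.exp_le_exp.2 (by linarith))
    refine near_of_frac _ _ _ q p hq (hq2.trans (Real.exp_le_exp.2 (by linarith))) ?_
      (hqx2.trans (Real.exp_le_exp.2 (by linarith)))
    have h3 : |(p : ℝ)| ≤ |(q : ℝ) * x i| + |(q : ℝ) * x i - p| := by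
      have := abs_sub ((q : ℝ) * x i) ((q : ℝ) * x i - p)
      rwa [sub_sub_cancel] at this
    have h4 : |(q : ℝ) * x i| ≤ Real.exp ((E + 2) * T j) := by
      rw [abs_mul, abs_of_nonneg (Nat.cast_nonneg q),
        show (E + 2) * T j = E * T j + 2 * T j by ring, Real.exp_add]
      refine mul_le_mul hq2 ((hxN i).trans ?_) (abs_nonneg _) (Real.exp_pos _).le
      calc N ^ 4 ≤ Real.exp (T j / 2) ^ 4 := pow_le_pow_left₀ (by linarith) hNexp 4
        _ = Real.exp (2 * T j) := by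
          rw [← Real.exp_nat_mul]
          congr 1
          push_cast
          ring
    have h5 : Real.exp (E * T j - T (j + 1)) ≤ 1 := by
      rw [Real.exp_le_one_iff]
      linarith
    have h6 : (1 : ℝ) ≤ Real.exp ((E + 2) * T j) := Real.one_le_exp (by linarith)
    have h7 : (2 : ℝ) ≤ Real.exp (3 * T j) := by
      have := Real.add_one_le_exp (3 * T j)
      linarith
    have h8 : Real.exp ((E + 5) * T j) = Real.exp ((E + 2) * T j) * Real.exp (3 * T j) := by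
      rw [← Real.exp_add]
      ring_nf
    rw [h8]
    nlinarith

end Pool.Agent.L0h78.ND
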