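import Mathlib
import Pool.Agent.L0h78.ND.Window

/-! Digits of two of three numbers with simultaneous measures. -/

set_option autoImplicit false

namespace Pool.Agent.L0h78.ND

/-- a polynomial measure for common denominators excludes simultaneous approximations -/
theorem not_both {y z c₀ : ℝ} (hc : 0 < c₀) (M : ℕ)
    (hm : ∀ (a b : ℤ) (n : ℕ), 0 < n → c₀ / (n : ℝ) ^ M ≤ max |y - a / n| |z - b / n|)
    {κ : ℝ} (hκ : 1 < κ) : ∃ C : ℝ, 0 < C ∧ ∀ C' : ℝ, C ≤ C' → ∀ H : ℝ, 3 ≤ H →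
      ¬ (Near H (Real.exp (-(C' * Real.log H ^ κ))) y ∧
        Near H (Real.exp (-(C' * Real.log H ^ κ))) z) := by
  obtain ⟨m, hm'⟩ := exists_nat_gt (1 / c₀)
  refine ⟨2 * M + m + 1, by positivity, fun C' hC' H hH => ?_⟩
  rintro ⟨⟨r, hr, hry⟩, ⟨s, hs, hsz⟩⟩
  have hH0 : 0 < H := by linarith
  have hlog : 1 ≤ Real.log H := by
    rw [Real.le_log_iff_exp_le hH0]
    linarith [Real.exp_one_lt_d9]
  -- the error
  have h1 : Real.exp (-(C' * Real.log H ^ κ)) ≤ (H ^ (2 * M + m))⁻¹ := by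
    have h2 : Real.log H ≤ Real.log H ^ κ := by
      calc Real.log H = Real.log H ^ (1 : ℝ) := (Real.rpow_one _).symm
        _ ≤ Real.log H ^ κ := Real.rpow_le_rpow_of_exponent_le hlog hκ.le
    have h3 : (((2 * M + m : ℕ) : ℝ)) * Real.log H ≤ C' * Real.log H ^ κ := by
      refine mul_le_mul ?_ h2 (by linarith) ?_
      · push_cast
        linarith
      · have : (0 : ℝ) ≤ 2 * M + m + 1 := by positivity
        linarith
    calc Real.exp (-(C' * Real.log H ^ κ)) ≤ Real.exp (-(((2 * M + m : ℕ) : ℝ) * Real.log H)) :=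
          Real.exp_le_exp.2 (by linarith)
      _ = (H ^ (2 * M + m))⁻¹ := by
          rw [Real.exp_neg, Real.exp_nat_mul, Real.exp_log hH0]
  -- common denominators
  have hr0 : (0 : ℝ) < r.den := by exact_mod_cast r.pos
  have hs0 : (0 : ℝ) < s.den := by exact_mod_cast s.pos
  have h4 := hm (r.num * s.den) (s.num * r.den) (r.den * s.den) (Nat.mul_pos r.pos s.pos)
  have e1 : ((r.num * s.den : ℤ) : ℝ) / ((r.den * s.den : ℕ) : ℝ) = (r : ℝ) := by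
    have : (r : ℝ) = (r.num : ℝ) / (r.den : ℝ) := by exact_mod_cast (Rat.num_div_den r).symm
    rw [this]
    push_cast
    field_simp
  have e2 : ((s.num * r.den : ℤ) : ℝ) / ((r.den * s.den : ℕ) : ℝ) = (s : ℝ) := by
    have : (s : ℝ) = (s.num : ℝ) / (s.den : ℝ) := by exact_mod_cast (Rat.num_div_den s).symm
    rw [this]
    push_cast
    field_simp
  rw [e1, e2] at h4
  have h5 : c₀ / ((r.den * s.den : ℕ) : ℝ) ^ M ≤ (H ^ (2 * M + m))⁻¹ :=
    h4.trans (max_le (hry.trans h1) (hsz.trans h1))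
  have h6 : ((r.den * s.den : ℕ) : ℝ) ^ M ≤ H ^ (2 * M) := by
    rw [pow_mul]
    refine pow_le_pow_left₀ (by positivity) ?_ M
    push_cast
    rw [pow_two]
    exact mul_le_mul hr.2 hs.2 hs0.le hH0.le
  have h7 : c₀ / H ^ (2 * M) ≤ c₀ / ((r.den * s.den : ℕ) : ℝ) ^ M :=
    div_le_div_of_nonneg_left hc.le (by positivity) h6
  have h8 := h7.trans h5
  rw [pow_add, mul_inv, div_eq_mul_inv, mul_comm c₀, mul_le_mul_iff_right₀ (by positivity)] at h8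
  have h9 : (m : ℝ) < H ^ m := by
    have h10 : (m : ℝ) < 2 ^ m := by exact_mod_cast Nat.lt_two_pow_self
    exact h10.trans_le (pow_le_pow_left₀ (by norm_num) (by linarith) m)
  have h10 : 1 / c₀ < H ^ m := hm'.trans h9
  rw [div_lt_iff₀ hc] at h10
  have h11 : 0 < H ^ m := by positivity
  have h12 : H ^ m * c₀ ≤ H ^ m * (H ^ m)⁻¹ := mul_le_mul_of_nonneg_left h8 h11.le
  rw [mul_inv_cancel₀ h11.ne'] at h12
  linarith

/-- **two of three numbers have no simple digits** -/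
theorem three (x : Fin 3 → ℝ) (hm : ∀ i j, i ≠ j → ∃ (c : ℝ) (M : ℕ), 0 < c ∧
    ∀ (a b : ℤ) (n : ℕ), 0 < n → c / (n : ℝ) ^ M ≤ max |x i - a / n| |x j - b / n|)
    (κ : ℝ) (hκ : 1 < κ) (A : ℕ) : ∃ c B : ℝ, 0 < c ∧ ∀ (k : ℕ) (Λ : ℝ), 0 ≤ Λ →
      B ≤ c * Λ ^ (1 / κ ^ (2 * k + 1)) →
      ∃ i j : Fin 3, i ≠ j ∧ ¬ Simple A k Λ (c * Λ ^ (1 / κ ^ (2 * k + 1))) (x i) ∧
        ¬ Simple A k Λ (c * Λ ^ (1 / κ ^ (2 * k + 1))) (x j) := by
  have hC : ∀ i j : Fin 3, i ≠ j → ∃ C : ℝ, 0 < C ∧ ∀ C' : ℝ, C ≤ C' → ∀ H : ℝ, 3 ≤ H →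
      ¬ (Near H (Real.exp (-(C' * Real.log H ^ κ))) (x i) ∧
        Near H (Real.exp (-(C' * Real.log H ^ κ))) (x j)) := by
    intro i j hij
    obtain ⟨c, M, hc, h⟩ := hm i j hij
    exact not_both hc M h hκ
  obtain ⟨C₁, hC₁, h₁⟩ := hC 0 1 (by decide)
  obtain ⟨C₂, hC₂, h₂⟩ := hC 0 2 (by decide)
  obtain ⟨C₃, hC₃, h₃⟩ := hC 1 2 (by decide)
  obtain ⟨c, hc, hnear⟩ := near (C₁ + C₂ + C₃) κ (by positivity) hκ 2 A
  obtain ⟨N, hN⟩ : ∃ N : ℝ, N = 3 + |x 0| + |x 1| + |x 2| := ⟨_, rfl⟩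
  have a0 := abs_nonneg (x 0)
  have a1 := abs_nonneg (x 1)
  have a2 := abs_nonneg (x 2)
  have hN3 : 3 ≤ N := by linarith
  have hN4 : N ≤ N ^ 4 := by
    calc N = N ^ 1 := (pow_one N).symm
      _ ≤ N ^ 4 := pow_le_pow_right₀ (by linarith) (by norm_num)
  refine ⟨c, Real.log N, hc, fun k Λ hΛ hB => ?_⟩
  have key : ∀ i j : Fin 3, i ≠ j → |x i| ≤ N → |x j| ≤ N →
      (∀ H : ℝ, 3 ≤ H → ¬ (Near H (Real.exp (-((C₁ + C₂ + C₃) * Real.log H ^ κ))) (x i) ∧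
        Near H (Real.exp (-((C₁ + C₂ + C₃) * Real.log H ^ κ))) (x j))) →
      ¬ Simple A k Λ (c * Λ ^ (1 / κ ^ (2 * k + 1))) (x i) ∨
        ¬ Simple A k Λ (c * Λ ^ (1 / κ ^ (2 * k + 1))) (x j) := by
    intro i j _ hi hj h
    by_contra hcon
    push Not at hcon
    obtain ⟨H, hH, -, hx⟩ := hnear k N Λ hN3 hΛ hB ![x i, x j] (by
      intro l
      fin_cases l
      · exact ⟨hi.trans hN4, hcon.1⟩
      · exact ⟨hj.trans hN4, hcon.2⟩)
    exact h H hH ⟨hx 0, hx 1⟩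
  have k1 := key 0 1 (by decide) (by linarith) (by linarith) fun H hH => h₁ _ (by linarith) H hH
  have k2 := key 0 2 (by decide) (by linarith) (by linarith) fun H hH => h₂ _ (by linarith) H hH
  have k3 := key 1 2 (by decide) (by linarith) (by linarith) fun H hH => h₃ _ (by linarith) H hH
  rcases k1 with h | h
  · rcases k3 with h' | h'
    · exact ⟨0, 1, by decide, h, h'⟩
    · exact ⟨0, 2, by decide, h, h'⟩
  · rcases k2 with h' | h'
    · exact ⟨0, 1, by decide, h', h⟩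
    · exact ⟨1, 2, by decide, h, h'⟩

end Pool.Agent.L0h78.ND
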